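import Pool.Agent.Lib.MP_1024aa_co.BiasMain

/-!
The blocking half and the building half of the biased clique game on their own, for two large
biases.
-/

set_option autoImplicit false

open Finset

namespace Pool.Agent.FS.CliqueCap

open Pool.Agent.Lib.MP_1024aa_co.Bias

theorem quad_real {α : ℝ} (hα : 0 < α) (b c : ℝ) :
    ∃ u₀ : ℝ, 1 ≤ u₀ ∧ ∀ u : ℝ, u₀ ≤ u → b * u + c < α * u ^ 2 := by
  have h2 : 0 ≤ (|b| + |c|) / α := by positivity
  refine ⟨(|b| + |c|) / α + 1, by linarith, fun u hu => ?_⟩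
  have h3 : (|b| + |c|) / α < u := by linarith
  rw [div_lt_iff₀ hα] at h3
  have h4 : 1 ≤ u := by linarith
  have h5 := mul_lt_mul_of_pos_right h3 (by linarith : 0 < u)
  have h6 : b * u ≤ |b| * u := mul_le_mul_of_nonneg_right (le_abs_self b) (by linarith)
  have h7 : |c| * 1 ≤ |c| * u := mul_le_mul_of_nonneg_left h4 (abs_nonneg c)
  nlinarith [le_abs_self c]

theorem theta_ok {T p q : ℝ} (hT : 1 ≤ T) (hp : (2 * T) ^ 2 ≤ p) (hq : (2 * T) ^ 2 ≤ q) :
    Real.exp (T * (Real.log (1 + q) / p)) ≤ 1 + q / p := by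
  have hr : 0 < 2 * T := by linarith
  have hrp : 2 * T ≤ p := by nlinarith
  have hp0 : 0 < p := by linarith
  obtain ⟨z, rfl⟩ : ∃ z, q = z * (2 * T) := ⟨q / (2 * T), by field_simp⟩
  have hz : 2 * T ≤ z := le_of_mul_le_mul_right (by nlinarith) hr
  have h1 : Real.log (1 + z * (2 * T)) ≤ 2 * Real.log (1 + z) := by
    rw [show 2 * Real.log (1 + z) = Real.log ((1 + z) ^ 2) by rw [Real.log_pow]; norm_num]
    exact Real.log_le_log (by nlinarith) (by nlinarith)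
  have h2 : T * (Real.log (1 + z * (2 * T)) / p) ≤ Real.log (1 + z) * (2 * T / p) := by
    calc T * (Real.log (1 + z * (2 * T)) / p) ≤ T * (2 * Real.log (1 + z) / p) := by gcongr
      _ = _ := by ring
  refine (Real.exp_le_exp.2 h2).trans ?_
  rw [← Real.rpow_def_of_pos (by linarith)]
  refine (rpow_one_add_le_one_add_mul_self (by linarith) (by positivity)
    ((div_le_one hp0).2 hrp)).trans (le_of_eq ?_)
  ring

theorem alg {η u x k p D E : ℝ} (hη : 0 < η) (hη1 : η ≤ 1) (hu : 0 ≤ u) (hD : 0 ≤ D)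
    (x1 : η * u ≤ x) (x2 : x ≤ η * u + 1) (k1 : (1 + 3 * η) * u ≤ k)
    (k2 : k ≤ (1 + 3 * η) * u + 1) (hbig : 1 + 2 * p ≤ 2 * η * u)
    (hq : (η * (1 + 2 * p) + 2 * p + η ^ 2 / 4 + 4 * D) * u + (D + E) < η ^ 2 * u ^ 2) :
    E + u * (x + 2 * p) + (η ^ 2 / 4 * u + D) * k < x * (k - x - 2 * p) := by
  have h1 : η * u * (2 * η * u - 1 - 2 * p) ≤ x * (k - x - 2 * p - u) :=
    mul_le_mul x1 (by linarith) (by linarith) (le_trans (by positivity) x1)
  have h2 : k ≤ 4 * u + 1 := by nlinarith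
  have h3 : (η ^ 2 / 4 * u + D) * k ≤ (η ^ 2 / 4 * u + D) * (4 * u + 1) :=
    mul_le_mul_of_nonneg_left h2 (by positivity)
  nlinarith

theorem exists_block {s : ℕ} (hs : 1 ≤ s) : ∃ m₀ : ℕ, ∀ p q : ℕ, m₀ ≤ p → m₀ ≤ q → ∃ N : ℕ,
    ∀ n : ℕ, N ≤ n → ∀ E : Finset (Sym2 (Fin n)), (∀ e, e ∈ E ↔ ¬ e.IsDiag) →
    ∃ P : Finset (Sym2 (Fin n)) → Finset (Sym2 (Fin n)) → Prop,
      Guard E p q P ∧ P ∅ ∅ ∧ ∀ R B, P R B → Disjoint R B → R ∪ B = E →
        ∀ K : Finset (Fin n),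
          K.card = ⌈(1 + 3 * (1 / (s : ℝ))) * (Real.log n / (Real.log (1 + q) / p))⌉₊ →
          ¬ Joined R K K := by
  refine ⟨(2 * (2048 * s ^ 6)) ^ 2, fun p q hp hq => ?_⟩
  have hs' : (1 : ℝ) ≤ s := by exact_mod_cast hs
  have hT : (1 : ℝ) ≤ 2048 * (s : ℝ) ^ 6 := by nlinarith [one_le_pow₀ hs' (n := 6)]
  have hp' : (2 * (2048 * (s : ℝ) ^ 6)) ^ 2 ≤ p := by exact_mod_cast hp
  have hq' : (2 * (2048 * (s : ℝ) ^ 6)) ^ 2 ≤ q := by exact_mod_cast hq
  have hth := theta_ok hT hp' hq'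
  have hp0 : (0 : ℝ) < p := by nlinarith
  have hq0 : (0 : ℝ) < q := by nlinarith
  have hp1 : 0 < p := by exact_mod_cast hp0
  set Λ := Real.log (1 + q) with hΛ
  have c0 : 0 < Λ := Real.log_pos (by linarith)
  set β : ℝ := Λ / p with hβ
  have hβ0 : 0 < β := by positivity
  set η : ℝ := 1 / (s : ℝ) with hη
  have hη0 : 0 < η := by positivity
  have hη1 : η ≤ 1 := by rw [hη]; exact (div_le_one (by linarith)).2 hs'
  set D : ℝ := (2 * p / β + p) / (16 * s ^ 2) with hD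
  set F : ℝ := (Λ + 2) / β + η ^ 2 / 8 * (Λ + 2) / β with hF
  obtain ⟨u₀, hu1, hu₀⟩ := quad_real (by positivity : 0 < η ^ 2)
    (η * (1 + 2 * p) + 2 * p + η ^ 2 / 4 + 4 * D) (D + F)
  refine ⟨⌈Real.exp (max u₀ ((1 + 2 * p) / η) * β)⌉₊, fun n hn E hE => ?_⟩
  have hn1 : Real.exp (max u₀ ((1 + 2 * p) / η) * β) ≤ n := Nat.ceil_le.1 hn
  have hn0 : (0 : ℝ) < n := lt_of_lt_of_le (Real.exp_pos _) hn1
  have hn2 : max u₀ ((1 + 2 * p) / η) ≤ Real.log n / β :=
    (le_div_iff₀ hβ0).2 ((Real.le_log_iff_exp_le hn0).2 hn1)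
  set u : ℝ := Real.log n / β with hu
  have hu2 : u₀ ≤ u := le_of_max_le_left hn2
  have hu3 : 1 + 2 * p ≤ u * η := (div_le_iff₀ hη0).1 (le_of_max_le_right hn2)
  have hu0 : 0 ≤ u := by linarith
  have hlu : Real.log n = β * u := by rw [hu]; field_simp
  set x : ℕ := ⌈η * u⌉₊ with hx
  set k : ℕ := ⌈(1 + 3 * η) * u⌉₊ with hk0
  have x1 : η * u ≤ x := Nat.le_ceil _
  have x2 : (x : ℝ) ≤ η * u + 1 := (Nat.ceil_lt_add_one (by positivity)).le
  have k1 : (1 + 3 * η) * u ≤ k := Nat.le_ceil _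
  have k2 : (k : ℝ) ≤ (1 + 3 * η) * u + 1 := (Nat.ceil_lt_add_one (by positivity)).le
  let P : Par := ⟨p, 16 * s ^ 2, x, q / p, β * u, β, 2048 * (s : ℝ) ^ 6 * β, 2 * (β * u) + 2 * p⟩
  have hl : (Fintype.card (Fin n) : ℝ) ≤ Real.exp P.l := by
    change _ ≤ Real.exp (β * u)
    rw [← hlu, Real.exp_log hn0, Fintype.card_fin]
  have hk : P.x + 2 * P.p ≤ k := by
    change x + 2 * p ≤ k
    have : (x : ℝ) + 2 * p ≤ k := by nlinarith
    exact_mod_cast this
  have g1 := Blk.guard P E q k hp1 hβ0.le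
    (by change (q : ℝ) / p * p = q; field_simp) rfl (fun j hj => exp_le_lin hp1 hj) hth
  refine ⟨_, g1, Blk.init P E q (by omega) hl, ?_⟩
  intro R B hB hd hRB K hK hJ
  have hBK : Disjoint B K.sym2 := by
    refine disjoint_left.2 fun e he hK => ?_
    induction e using Sym2.ind with
    | _ u v =>
      obtain ⟨hu, hv⟩ := mk_mem_sym2_iff.1 hK
      have hne : u ≠ v := fun h =>
        (hE _).1 (hRB ▸ mem_union_right R he) (Sym2.mk_isDiag_iff.2 h)
      exact disjoint_left.1 hd (hJ u hu v hv hne) he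
  have hfin := Blk.final P hβ0.le (by change 0 ≤ β * u; positivity)
    (by change 0 ≤ 2 * (β * u) + 2 * p; positivity)
    (by change 0 < 2048 * (s : ℝ) ^ 6 * β; positivity)
    (by change 0 < 16 * s ^ 2; positivity) hk hl (c := Λ + 2)
    (by rw [add_sub_cancel_right, hΛ, Real.exp_log (by positivity)]) hB hK hBK hJ
  have h9 := alg hη0 hη1 hu0 (by positivity : 0 ≤ D) x1 x2 k1 k2 (by nlinarith) (hu₀ u hu2)
  simp only [P] at hfin
  push_cast at hfin
  refine absurd hfin (not_le.2 (lt_of_eq_of_lt ?_ (mul_lt_mul_of_pos_left h9 hβ0)))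
  rw [hD, hF, hη]
  field_simp
  ring

theorem play_first {α : Type} [DecidableEq α] {E : Finset α} {p a q : ℕ}
    {P : Finset α → Finset α → Prop} (hP : Guard E q a P) (hap : a ≤ p) (h0 : P ∅ ∅) :
    ∃ τ : Finset α → Finset α → Finset α,
      (∀ R B, τ R B ⊆ E \ (R ∪ B) ∧ (τ R B).card = min p (E \ (R ∪ B)).card) ∧
      ∀ (t : ℕ) (M R B : ℕ → Finset α), R 0 = ∅ → B 0 = ∅ →
        (∀ i < t, R (i + 1) = R i ∪ τ (R i) (B i) ∧ M i ⊆ E \ (R (i + 1) ∪ B i) ∧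
          (M i).card = min q (E \ (R (i + 1) ∪ B i)).card ∧ B (i + 1) = B i ∪ M i) →
        R t ∪ B t = E → P (B t) (R t) := by
  classical
  have key : ∀ R B : Finset α, ∃ T : Finset α,
      (T ⊆ E \ (R ∪ B) ∧ T.card = min p (E \ (R ∪ B)).card) ∧
      ((∃ T' : Finset α, (T' ⊆ E \ (R ∪ B) ∧ T'.card = min p (E \ (R ∪ B)).card) ∧
        P B (R ∪ T')) → P B (R ∪ T)) := by
    intro R B
    by_cases hex : ∃ T' : Finset α, (T' ⊆ E \ (R ∪ B) ∧ T'.card = min p (E \ (R ∪ B)).card) ∧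
        P B (R ∪ T')
    · obtain ⟨T, hT, hm⟩ := hex
      exact ⟨T, hT, fun _ => hm⟩
    · obtain ⟨T, hT, hc⟩ := exists_subset_card_eq (s := E \ (R ∪ B))
        (min_le_right p (E \ (R ∪ B)).card)
      exact ⟨T, ⟨hT, hc⟩, fun h => absurd h hex⟩
  choose τ hτ hτP using key
  refine ⟨τ, hτ, fun t M R B hR hB hplay hend => ?_⟩
  have inv : ∀ i ≤ t, ∃ T : Finset α, T ⊆ E \ (B i ∪ R i) ∧ T.card ≤ a ∧
      ∀ B' : Finset α, R i ∪ T ⊆ B' → P (B i) B' := by
    intro i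
    induction i with
    | zero =>
      intro _
      rw [hR, hB]
      simpa using hP ∅ ∅ ∅ h0 (empty_subset _) (by simp)
    | succ i ih =>
      intro hi
      obtain ⟨T, h1, h2, h3⟩ := ih (by omega)
      obtain ⟨hRi, hM, hc, hBi⟩ := hplay i (by omega)
      rw [union_comm] at h1
      obtain ⟨T', hT1, hT2, hT3⟩ := exists_subsuperset_card_eq h1
        (n := min p (E \ (R i ∪ B i)).card)
        (le_min (h2.trans hap) (card_le_card h1)) (min_le_right _ _)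
      have h4 := hτP _ _ ⟨T', ⟨hT2, hT3⟩, h3 _ (union_subset_union_right hT1)⟩
      rw [← hRi] at h4
      rw [hBi]
      exact hP _ _ _ h4 (union_comm (R (i + 1)) (B i) ▸ hM) (hc ▸ min_le_left _ _)
  obtain ⟨T, h1, -, h3⟩ := inv t le_rfl
  rw [union_comm, hend, sdiff_self] at h1
  exact h3 _ (by rw [subset_empty.1 h1, union_empty])

theorem exists_level {s p q : ℕ} (hs : 1 ≤ s) (hp : 1 ≤ p) (hq : 64 ^ s ≤ q) : ∃ N : ℕ,
    ∀ n : ℕ, N ≤ n → ∃ L : ℕ, p * (64 * q) ^ L ≤ n ∧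
      (1 - 2 * (1 / (s : ℝ))) * Real.log n ≤ L * Real.log (q + 1) := by
  have hs' : (1 : ℝ) ≤ s := by exact_mod_cast hs
  have hq1 : 1 ≤ q := le_trans (Nat.one_le_pow _ _ (by norm_num)) hq
  have hq1' : (1 : ℝ) ≤ q := by exact_mod_cast hq1
  have hp' : (1 : ℝ) ≤ p := by exact_mod_cast hp
  set η : ℝ := 1 / (s : ℝ) with hη
  have hη0 : 0 < η := by positivity
  have hηs : η * s = 1 := by rw [hη]; field_simp
  have a1 : (s : ℝ) * Real.log 64 ≤ Real.log (q + 1) := by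
    rw [← Real.log_pow]
    refine Real.log_le_log (by positivity) ?_
    have : ((64 : ℝ)) ^ s ≤ q := by exact_mod_cast hq
    linarith
  have a2 : Real.log (64 * q) ≤ (1 + η) * Real.log (q + 1) := by
    rw [Real.log_mul (by norm_num) (by positivity)]
    have e1 : Real.log q ≤ Real.log (q + 1) := Real.log_le_log (by positivity) (by linarith)
    have e2 := mul_le_mul_of_nonneg_left a1 hη0.le
    rw [← mul_assoc, hηs] at e2
    linarith
  refine ⟨max p ⌈Real.exp ((Real.log p + Real.log (64 * q)) / η)⌉₊, fun n hn => ?_⟩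
  have hn1 := Nat.ceil_le.1 (le_of_max_le_right hn)
  have hn0 : (0 : ℝ) < n := lt_of_lt_of_le (Real.exp_pos _) hn1
  have hn2 := (div_le_iff₀ hη0).1 ((Real.le_log_iff_exp_le hn0).2 hn1)
  have e0 : n / p ≠ 0 := ((Nat.le_div_iff_mul_le hp).2
    (by rw [one_mul]; exact le_of_max_le_left hn) : 1 ≤ n / p).trans_lt' zero_lt_one |>.ne'
  refine ⟨Nat.log (64 * q) (n / p), ?_, ?_⟩
  · rw [mul_comm]
    exact (Nat.le_div_iff_mul_le hp).1 (Nat.pow_log_le_self _ e0)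
  · have e2 := Nat.lt_pow_succ_log_self (by omega : 1 < 64 * q) (n / p)
    have e3 : n < p * (n / p + 1) := Nat.lt_mul_div_succ n hp
    generalize Nat.log (64 * q) (n / p) = L at *
    have e4 : (n : ℝ) ≤ p * (64 * q) ^ (L + 1) := by
      exact_mod_cast e3.le.trans (Nat.mul_le_mul_left p e2)
    have e5 := Real.log_le_log hn0 e4
    rw [Real.log_mul (by positivity) (by positivity), Real.log_pow] at e5
    push_cast at e5
    have e6 := mul_le_mul_of_nonneg_left a2 (Nat.cast_nonneg L)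
    have e7 : 0 ≤ Real.log n := Real.log_natCast_nonneg n
    refine le_of_mul_le_mul_left ?_ (by linarith : 0 < 1 + η)
    nlinarith [mul_nonneg (mul_nonneg hη0.le hη0.le) e7]

end Pool.Agent.FS.CliqueCap
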